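import Pool.Agent.H14.GW.Rank

/-!
# Holomorphic sections of `F p ⊓ B`
-/

open scoped Manifold ContDiff Topology
open Laplacian ComplexConjugate Filter

namespace Pool.Agent.H64.GW

variable {𝕄 : Type} [NormedAddCommGroup 𝕄] [NormedSpace ℂ 𝕄]
  {S : Type} [TopologicalSpace S] [ChartedSpace 𝕄 S]
  {Γ : Type} [Group Γ] [MulAction Γ S]
  {E : Type} [NormedAddCommGroup E] [NormedSpace ℂ E]

namespace PolarizedVariation

theorem exists_section [FiniteDimensional ℂ E] (X : PolarizedVariation 𝕄 S Γ E) (p : ℤ)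
    (B : Submodule ℂ E) {f : ℂ → S} {z₀ : ℂ}
    (hf : ∀ᶠ z in 𝓝 z₀, MDifferentiableAt 𝓘(ℂ) 𝓘(ℂ, 𝕄) f z)
    (hr : ∀ᶠ s in 𝓝 (f z₀), Module.finrank ℂ (X.F p s ⊔ B : Submodule ℂ E) ≤
      Module.finrank ℂ (X.F p (f z₀) ⊔ B : Submodule ℂ E))
    {e : E} (he : e ∈ X.F p (f z₀)) (heB : e ∈ B) :
    ∃ l : ℂ → E, l z₀ = e ∧ ∀ᶠ z in 𝓝 z₀, MDifferentiableAt 𝓘(ℂ) 𝓘(ℂ, 𝕄) f z ∧
      DifferentiableAt ℂ l z ∧ l z ∈ X.F p (f z) ∧ l z ∈ B := by
  have : CompleteSpace E := FiniteDimensional.complete ℂ E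
  obtain ⟨g, hg0, hg⟩ := X.exists_local (f z₀)
  have hfc : Tendsto f (𝓝 z₀) (𝓝 (f z₀)) := hf.self_of_nhds.continuousAt
  set T : ℂ → ((X.F p (f z₀) × B) →L[ℂ] E) := fun z => sumMap (X.F p (f z₀)) B (g (f z)) with hT
  have hgd : ∀ᶠ z in 𝓝 z₀, DifferentiableAt ℂ (fun z => g (f z)) z := by
    filter_upwards [hf, hfc.eventually hg] with z h1 h2
    have h6 : MDifferentiableAt 𝓘(ℂ) 𝓘(ℂ, E →L[ℂ] E) (g ∘ f) z := h2.1.comp z h1
    exact mdifferentiableAt_iff_differentiableAt.1 h6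
  have hTd : ∀ᶠ z in 𝓝 z₀, DifferentiableAt ℂ T z := by
    filter_upwards [hgd] with z h7
    rw [hT]
    simp only [sumMap_eq]
    exact (h7.clm_comp (differentiableAt_const _)).add_const _
  have hrk : ∀ᶠ z in 𝓝 z₀,
      Module.finrank ℂ (LinearMap.range (T z : (X.F p (f z₀) × B) →ₗ[ℂ] E)) =
        Module.finrank ℂ (X.F p (f z) ⊔ B : Submodule ℂ E) := by
    filter_upwards [hfc.eventually hg] with z h2
    rw [hT]
    simp only []
    rw [finrank_range_sumMap, h2.2.2 p]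
  have hr' : ∀ᶠ z in 𝓝 z₀,
      Module.finrank ℂ (LinearMap.range (T z : (X.F p (f z₀) × B) →ₗ[ℂ] E)) ≤
        Module.finrank ℂ (LinearMap.range (T z₀ : (X.F p (f z₀) × B) →ₗ[ℂ] E)) := by
    filter_upwards [hrk, hfc.eventually hr] with z h1 h2
    rw [h1, hrk.self_of_nhds]
    exact h2
  have hv : T z₀ (⟨e, he⟩, -⟨e, heB⟩) = 0 := by
    show g (f z₀) e + -e = 0
    rw [hg0]
    show e + -e = 0
    exact add_neg_cancel e
  obtain ⟨u, hu0, hu⟩ := Pool.Agent.H14.GW.ker_extension hTd hr' hv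
  refine ⟨fun z => g (f z) (u z).1, ?_, ?_⟩
  · show g (f z₀) (u z₀).1 = e
    rw [hu0, hg0]
    rfl
  · filter_upwards [hf, hgd, hu, hfc.eventually hg] with z h1 h2 h3 h4
    refine ⟨h1, ?_, ?_, ?_⟩
    · have h5 : DifferentiableAt ℂ (fun z => ((u z).1 : E)) z :=
        ((X.F p (f z₀)).subtypeL.comp
          (ContinuousLinearMap.fst ℂ (X.F p (f z₀)) B)).differentiableAt.comp z h3.1
      exact h2.clm_apply h5
    · rw [h4.2.2 p]
      exact ⟨(u z).1, (u z).1.2, rfl⟩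
    · have h6 : g (f z) (u z).1 + ((u z).2 : E) = 0 := h3.2
      have h7 : g (f z) (u z).1 = -((u z).2 : E) := eq_neg_of_add_eq_zero_left h6
      show g (f z) (u z).1 ∈ B
      rw [h7]
      exact B.neg_mem (u z).2.2

end PolarizedVariation

end Pool.Agent.H64.GW
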