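import Mathlib

/-!
# Ranks of holomorphic families of linear maps
-/

open Filter Topology Module

namespace Pool.Agent.H14.GW

variable {V : Type*} [NormedAddCommGroup V] [NormedSpace ℂ V] [FiniteDimensional ℂ V]
  {W : Type*} [NormedAddCommGroup W] [NormedSpace ℂ W] [FiniteDimensional ℂ W]

omit [FiniteDimensional ℂ W] in
/-- the rank of a continuous family of linear maps is lower semicontinuous -/
theorem finrank_range_lsc {α : Type*} [TopologicalSpace α] {T : α → V →L[ℂ] W} {a : α}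
    (hT : ContinuousAt T a) :
    ∀ᶠ x in 𝓝 a, finrank ℂ (LinearMap.range (T a : V →ₗ[ℂ] W)) ≤
      finrank ℂ (LinearMap.range (T x : V →ₗ[ℂ] W)) := by
  have h1 := isOpen_setOfPred_nat_le_rank (𝕜 := ℂ) (E := V) (F := W)
    (finrank ℂ (LinearMap.range (T a : V →ₗ[ℂ] W)))
  have h2 : T a ∈ {f : V →L[ℂ] W | ((finrank ℂ (LinearMap.range (T a : V →ₗ[ℂ] W)) : ℕ) : Cardinal) ≤
      (f : V →ₗ[ℂ] W).rank} := by
    show ((finrank ℂ (LinearMap.range (T a : V →ₗ[ℂ] W)) : ℕ) : Cardinal) ≤
      (T a : V →ₗ[ℂ] W).rank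
    rw [LinearMap.rank, finrank_eq_rank]
  filter_upwards [hT.eventually (h1.eventually_mem h2)] with x hx
  have h3 : ((finrank ℂ (LinearMap.range (T a : V →ₗ[ℂ] W)) : ℕ) : Cardinal) ≤
      (T x : V →ₗ[ℂ] W).rank := hx
  rw [LinearMap.rank, ← finrank_eq_rank] at h3
  exact_mod_cast h3

/-- identity theorem for ranks: a bound for the rank on a nonempty open subset of a connected domain
holds on the domain -/
theorem finrank_range_identity {Ω : Set ℂ} (hΩo : IsOpen Ω) (hΩc : IsPreconnected Ω)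
    {T : ℂ → V →L[ℂ] W} (hT : ∀ z ∈ Ω, DifferentiableAt ℂ T z) {ρ : ℕ} {z₀ : ℂ} (h0 : z₀ ∈ Ω)
    (h : ∀ᶠ z in 𝓝 z₀, finrank ℂ (LinearMap.range (T z : V →ₗ[ℂ] W)) ≤ ρ) {z : ℂ} (hz : z ∈ Ω) :
    finrank ℂ (LinearMap.range (T z : V →ₗ[ℂ] W)) ≤ ρ := by
  by_contra hcon
  have h1 : ρ + 1 ≤ finrank ℂ (LinearMap.range (T z : V →ₗ[ℂ] W)) := by omega
  obtain ⟨y, hy⟩ := exists_linearIndependent_of_le_finrank h1
  have hy' : LinearIndependent ℂ (fun i => (y i : W)) :=
    hy.map' (LinearMap.range (T z : V →ₗ[ℂ] W)).subtype (Submodule.ker_subtype _)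
  choose x hx using fun i => (y i).2
  -- a dual map
  set L : (Fin (ρ + 1) → ℂ) →ₗ[ℂ] W := Fintype.linearCombination ℂ (fun i => (y i : W)) with hL
  have hLi : LinearMap.ker L = ⊥ := by
    rw [LinearMap.ker_eq_bot]
    exact linearIndependent_iff_injective_fintypeLinearCombination.1 hy'
  obtain ⟨β, hβ⟩ := L.exists_leftInverse_of_injective hLi
  have hβy : ∀ i, β (y i : W) = Pi.single i 1 := by
    intro i
    have h2 : L (Pi.single i 1) = (y i : W) := by
      rw [hL, Fintype.linearCombination_apply_single, one_smul]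
    rw [← h2]
    exact congrArg (fun f => f (Pi.single i 1)) hβ
  set D : ℂ → ℂ := fun ζ => (Matrix.of fun i j => β (T ζ (x i)) j).det with hD
  have hDz : D z = 1 := by
    have : (Matrix.of fun i j => β (T z (x i)) j) = (1 : Matrix (Fin (ρ + 1)) (Fin (ρ + 1)) ℂ) := by
      ext i j
      have h3 : T z (x i) = (y i : W) := hx i
      rw [Matrix.of_apply, h3, hβy, Matrix.one_apply]
      rw [Pi.single_apply]
      by_cases hij : i = j
      · subst hij; simp
      · rw [if_neg hij, if_neg (Ne.symm hij)]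
    rw [hD]
    simp only
    rw [this, Matrix.det_one]
  have hDd : DifferentiableOn ℂ D Ω := by
    intro ζ hζ
    apply DifferentiableAt.differentiableWithinAt
    have h4 : ∀ i j, DifferentiableAt ℂ (fun ζ => β (T ζ (x i)) j) ζ := by
      intro i j
      set b : W →L[ℂ] ℂ := LinearMap.toContinuousLinearMap ((LinearMap.proj j) ∘ₗ β) with hb
      have h5 : DifferentiableAt ℂ (fun ζ => T ζ (x i)) ζ :=
        (hT ζ hζ).clm_apply (differentiableAt_const _)
      exact (b.differentiableAt.comp ζ h5 : _)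
    rw [hD]
    simp only [Matrix.det_apply', Matrix.of_apply]
    apply DifferentiableAt.fun_sum
    intro σ _
    apply DifferentiableAt.mul (differentiableAt_const _)
    exact DifferentiableAt.fun_finsetProd (fun i _ => h4 _ _)
  have hD0 : D =ᶠ[𝓝 z₀] 0 := by
    filter_upwards [h] with ζ hζ
    by_contra hne
    have h6 : LinearIndependent ℂ (fun i => (Matrix.of fun i j => β (T ζ (x i)) j) i) :=
      Matrix.linearIndependent_rows_of_det_ne_zero hne
    have h7 : LinearIndependent ℂ (β ∘ fun i => T ζ (x i)) := h6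
    have h8 : LinearIndependent ℂ (fun i => T ζ (x i)) := h7.of_comp β
    have h9 : LinearIndependent ℂ (fun i => (⟨T ζ (x i), ⟨x i, rfl⟩⟩ :
        LinearMap.range (T ζ : V →ₗ[ℂ] W))) := by
      apply LinearIndependent.of_comp (LinearMap.range (T ζ : V →ₗ[ℂ] W)).subtype
      exact h8
    have h10 := h9.fintype_card_le_finrank
    rw [Fintype.card_fin] at h10
    omega
  have h11 := (hDd.analyticOnNhd hΩo).eqOn_zero_of_preconnected_of_eventuallyEq_zero hΩc h0 hD0 hz
  rw [hDz] at h11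
  exact one_ne_zero h11

/-- a generalized inverse -/
theorem exists_genInv {V W : Type*} [AddCommGroup V] [Module ℂ V] [AddCommGroup W] [Module ℂ W]
    (A : V →ₗ[ℂ] W) : ∃ R : W →ₗ[ℂ] V, ∀ v, A (R (A v)) = A v := by
  obtain ⟨R', hR'⟩ := A.rangeRestrict.exists_rightInverse_of_surjective
    (LinearMap.range_rangeRestrict _)
  obtain ⟨Q, hQ⟩ := (LinearMap.range A).subtype.exists_leftInverse_of_injective
    (Submodule.ker_subtype _)
  refine ⟨R' ∘ₗ Q, fun v => ?_⟩
  have h1 : Q (A v) = ⟨A v, ⟨v, rfl⟩⟩ :=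
    congrArg (fun f => f (⟨A v, ⟨v, rfl⟩⟩ : LinearMap.range A)) hQ
  rw [LinearMap.comp_apply, h1]
  have h2 := congrArg (fun f => ((f (⟨A v, ⟨v, rfl⟩⟩ : LinearMap.range A) :
    LinearMap.range A) : W)) hR'
  exact h2

/-- a kernel vector at a point where the rank is locally maximal extends to a holomorphic family of
kernel vectors -/
theorem ker_extension {A : ℂ → V →L[ℂ] W} {z₀ : ℂ}
    (hA : ∀ᶠ z in 𝓝 z₀, DifferentiableAt ℂ A z)
    (hr : ∀ᶠ z in 𝓝 z₀, Module.finrank ℂ (LinearMap.range (A z : V →ₗ[ℂ] W)) ≤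
      Module.finrank ℂ (LinearMap.range (A z₀ : V →ₗ[ℂ] W))) {v : V} (hv : A z₀ v = 0) :
    ∃ u : ℂ → V, u z₀ = v ∧ ∀ᶠ z in 𝓝 z₀, DifferentiableAt ℂ u z ∧ A z (u z) = 0 := by
  have : CompleteSpace W := FiniteDimensional.complete ℂ W
  obtain ⟨R₀, hR₀⟩ := exists_genInv (A z₀ : V →ₗ[ℂ] W)
  set R : W →L[ℂ] V := LinearMap.toContinuousLinearMap R₀ with hRdef
  set P : W →L[ℂ] W := (A z₀).comp R with hP
  have hPA : ∀ x, P (A z₀ x) = A z₀ x := fun x => hR₀ x
  have hPP : ∀ y, P (P y) = P y := fun y => hPA (R y)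
  set M : ℂ → (W →L[ℂ] W) := fun z => P.comp ((A z).comp R) + 1 - P with hM
  have hM0 : M z₀ = 1 := by
    ext y
    have : M z₀ y = P (A z₀ (R y)) + y - P y := rfl
    rw [this, hPA]
    show P y + y - P y = y
    abel
  have hMd : ∀ᶠ z in 𝓝 z₀, DifferentiableAt ℂ M z := by
    filter_upwards [hA] with z hz
    have h1 : DifferentiableAt ℂ (fun z => P.comp ((A z).comp R)) z := by
      have h2 : DifferentiableAt ℂ (fun z => (A z).comp R) z :=
        hz.clm_comp (differentiableAt_const _)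
      exact (differentiableAt_const P).clm_comp h2
    exact (h1.add_const _).sub_const _
  have hMu : ∀ᶠ z in 𝓝 z₀, IsUnit (M z) := by
    have h3 : ContinuousAt M z₀ := hMd.self_of_nhds.continuousAt
    exact h3.eventually (Units.isOpen.eventually_mem (by rw [hM0]; exact isUnit_one))
  set u : ℂ → V := fun z => v - R (Ring.inverse (M z) (P (A z v))) with hu
  refine ⟨u, ?_, ?_⟩
  · show v - R (Ring.inverse (M z₀) (P (A z₀ v))) = v
    rw [hv, map_zero, map_zero, map_zero, sub_zero]
  have hrk : ∀ᶠ z in 𝓝 z₀, LinearMap.ker ((P.comp (A z) : V →L[ℂ] W) : V →ₗ[ℂ] W) =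
      LinearMap.ker (A z : V →ₗ[ℂ] W) := by
    have h4 : ContinuousAt (fun z => P.comp (A z)) z₀ :=
      ((differentiableAt_const P).clm_comp hA.self_of_nhds).continuousAt
    have h6 : P.comp (A z₀) = A z₀ := by
      ext x
      exact hPA x
    have h5 : ∀ᶠ x in 𝓝 z₀, finrank ℂ (LinearMap.range (A z₀ : V →ₗ[ℂ] W)) ≤
        finrank ℂ (LinearMap.range ((P.comp (A x) : V →L[ℂ] W) : V →ₗ[ℂ] W)) := by
      have h5' := finrank_range_lsc h4
      rwa [h6] at h5'
    filter_upwards [h5, hr] with z h7 h8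
    have h9 : LinearMap.ker (A z : V →ₗ[ℂ] W) ≤
        LinearMap.ker ((P.comp (A z) : V →L[ℂ] W) : V →ₗ[ℂ] W) := by
      intro x hx
      rw [LinearMap.mem_ker] at hx ⊢
      show P (A z x) = 0
      have : A z x = 0 := hx
      rw [this, map_zero]
    have h10 := LinearMap.finrank_range_add_finrank_ker (A z : V →ₗ[ℂ] W)
    have h11 := LinearMap.finrank_range_add_finrank_ker
      ((P.comp (A z) : V →L[ℂ] W) : V →ₗ[ℂ] W)
    exact (Submodule.eq_of_le_of_finrank_le h9 (by omega)).symm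
  filter_upwards [hA, hMd, hMu, hrk] with z h1 h2 h3 h4
  constructor
  · have h5 : DifferentiableAt ℂ (fun z => Ring.inverse (M z)) z := h2.inverse h3
    have h6 : DifferentiableAt ℂ (fun z => P (A z v)) z :=
      P.differentiableAt.comp z (h1.clm_apply (differentiableAt_const _))
    have h7 : DifferentiableAt ℂ (fun z => Ring.inverse (M z) (P (A z v))) z := h5.clm_apply h6
    exact (R.differentiableAt.comp z h7).const_sub v
  · have h8 : u z ∈ LinearMap.ker ((P.comp (A z) : V →L[ℂ] W) : V →ₗ[ℂ] W) := by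
      rw [LinearMap.mem_ker]
      show P (A z (u z)) = 0
      set w := P (A z v) with hw
      set x := Ring.inverse (M z) w with hx
      have hMx : M z x = w :=
        congrArg (fun T : W →L[ℂ] W => T w) (Ring.mul_inverse_cancel _ h3)
      have h9 : P (A z (R x)) = w := by
        have h10 : P (M z x) = P (A z (R x)) := by
          have : M z x = P (A z (R x)) + x - P x := rfl
          rw [this, map_sub, map_add, hPP, hPP]
          abel
        rw [← h10, hMx, hw, hPP]
      show P (A z (v - R x)) = 0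
      rw [map_sub, map_sub, h9, ← hw, sub_self]
    rw [h4] at h8
    exact h8

end Pool.Agent.H14.GW
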