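import Pool.Agent.H64.GW.Core
import Pool.Agent.H14.GW.LinRank

/-!
# Ranks in a polarized variation: semicontinuity, identity theorem, sections of `F p ⊓ B`
-/

open scoped Manifold ContDiff Topology
open Laplacian ComplexConjugate Filter

namespace Pool.Agent.H64.GW

variable {𝕄 : Type} [NormedAddCommGroup 𝕄] [NormedSpace ℂ 𝕄]
  {S : Type} [TopologicalSpace S] [ChartedSpace 𝕄 S]
  {Γ : Type} [Group Γ] [MulAction Γ S]
  {E : Type} [NormedAddCommGroup E] [NormedSpace ℂ E]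

namespace PolarizedVariation

/-- the linear map `F p s₀ × W → E`, `(a, w) ↦ g a + w` -/
noncomputable def sumMap (F₀ W : Submodule ℂ E) (g : E →L[ℂ] E) : (F₀ × W) →L[ℂ] E :=
  (g.comp F₀.subtypeL).coprod W.subtypeL

theorem range_sumMap (F₀ W : Submodule ℂ E) (g : E →L[ℂ] E) :
    LinearMap.range (sumMap F₀ W g : (F₀ × W) →ₗ[ℂ] E) = F₀.map (g : E →ₗ[ℂ] E) ⊔ W := by
  ext x
  rw [Submodule.mem_sup]
  constructor
  · rintro ⟨⟨a, w⟩, rfl⟩
    exact ⟨g a, ⟨a, a.2, rfl⟩, w, w.2, rfl⟩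
  · rintro ⟨_, ⟨a, ha, rfl⟩, w, hw, rfl⟩
    exact ⟨(⟨a, ha⟩, ⟨w, hw⟩), rfl⟩

theorem finrank_range_sumMap (F₀ W : Submodule ℂ E) (g : E →L[ℂ] E) :
    Module.finrank ℂ (LinearMap.range (sumMap F₀ W g : (F₀ × W) →ₗ[ℂ] E)) =
      Module.finrank ℂ (F₀.map (g : E →ₗ[ℂ] E) ⊔ W : Submodule ℂ E) := by
  rw [range_sumMap]

/-- the map `g ↦ sumMap F₀ W g` is the sum of a continuous linear map and a constant -/
theorem sumMap_eq (F₀ W : Submodule ℂ E) (g : E →L[ℂ] E) :
    sumMap F₀ W g = g.comp (F₀.subtypeL.comp (ContinuousLinearMap.fst ℂ F₀ W)) +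
      W.subtypeL.comp (ContinuousLinearMap.snd ℂ F₀ W) := by
  ext x <;> rfl

theorem rank_lsc [FiniteDimensional ℂ E] (X : PolarizedVariation 𝕄 S Γ E) (p : ℤ)
    (W : Submodule ℂ E) (s₀ : S) :
    ∀ᶠ s in 𝓝 s₀, Module.finrank ℂ (X.F p s₀ ⊔ W : Submodule ℂ E) ≤
      Module.finrank ℂ (X.F p s ⊔ W : Submodule ℂ E) := by
  have : CompleteSpace E := FiniteDimensional.complete ℂ E
  obtain ⟨g, hg0, hg⟩ := X.exists_local s₀
  have hc : ContinuousAt g s₀ := hg.self_of_nhds.1.continuousAt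
  have hT : ContinuousAt (fun s => sumMap (X.F p s₀) W (g s)) s₀ := by
    simp only [sumMap_eq]
    exact (hc.clm_comp continuousAt_const).add continuousAt_const
  have h1 := Pool.Agent.H14.GW.finrank_range_lsc hT
  filter_upwards [h1, hg] with s h2 h3
  rw [finrank_range_sumMap, finrank_range_sumMap, ← h3.2.2 p, ← hg.self_of_nhds.2.2 p] at h2
  exact h2

theorem rank_identity [FiniteDimensional ℂ E] [PreconnectedSpace S] [IsManifold 𝓘(ℂ, 𝕄) 1 S]
    (X : PolarizedVariation 𝕄 S Γ E) (p : ℤ) (W : Submodule ℂ E) (ρ : ℕ) {U : Set S}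
    (hU : IsOpen U) (hne : U.Nonempty)
    (h : ∀ s ∈ U, Module.finrank ℂ (X.F p s ⊔ W : Submodule ℂ E) ≤ ρ) (s : S) :
    Module.finrank ℂ (X.F p s ⊔ W : Submodule ℂ E) ≤ ρ := by
  have : CompleteSpace E := FiniteDimensional.complete ℂ E
  set Z : Set S := {s | ∀ᶠ t in 𝓝 s, Module.finrank ℂ (X.F p t ⊔ W : Submodule ℂ E) ≤ ρ} with hZ
  have hopen : IsOpen Z := isOpen_setOfPred_eventually_nhds
  have hclosed : IsClosed Z := by
    rw [← closure_subset_iff_isClosed]
    intro s₀ hs₀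
    obtain ⟨g, hg0, hg⟩ := X.exists_local s₀
    set φ := chartAt 𝕄 s₀ with hφ
    have hsrc : s₀ ∈ φ.source := mem_chart_source 𝕄 s₀
    have htgt : φ s₀ ∈ φ.target := φ.map_source hsrc
    have hcont : Tendsto φ.symm (𝓝 (φ s₀)) (𝓝 s₀) := by
      have := φ.continuousAt_symm htgt
      rwa [ContinuousAt, φ.left_inv hsrc] at this
    have h1 : ∀ᶠ x in 𝓝 (φ s₀), x ∈ φ.target ∧
        (MDifferentiableAt 𝓘(ℂ, 𝕄) 𝓘(ℂ, E →L[ℂ] E) g (φ.symm x) ∧ IsUnit (g (φ.symm x)) ∧
      ∀ p, X.F p (φ.symm x) = (X.F p s₀).map (g (φ.symm x) : E →ₗ[ℂ] E)) :=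
      (φ.open_target.eventually_mem htgt).and (hcont.eventually hg)
    obtain ⟨ε, hε, hball⟩ := Metric.eventually_nhds_iff_ball.1 h1
    -- a point of `Z` in the ball
    have h2 : φ.source ∩ φ ⁻¹' (Metric.ball (φ s₀) ε) ∈ 𝓝 s₀ :=
      Filter.inter_mem (φ.open_source.mem_nhds hsrc)
        ((φ.continuousAt hsrc).preimage_mem_nhds (Metric.ball_mem_nhds _ hε))
    obtain ⟨s₂, ⟨hs₂, hs₂'⟩, hs₂Z⟩ := mem_closure_iff_nhds.1 hs₀ _ h2
    -- the claim on the ball
    have key : ∀ x ∈ Metric.ball (φ s₀) ε,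
        Module.finrank ℂ (X.F p (φ.symm x) ⊔ W : Submodule ℂ E) ≤ ρ := by
      intro x hx
      set a := φ s₂ with ha
      set Ω : Set ℂ := {ζ | a + ζ • (x - a) ∈ Metric.ball (φ s₀) ε} with hΩ
      have hΩo : IsOpen Ω := Metric.isOpen_ball.preimage (by fun_prop)
      have hΩc : IsPreconnected Ω := by
        have : Convex ℝ Ω := by
          intro ζ hζ η hη α β hα hβ hαβ
          have h5 : a + (α • ζ + β • η) • (x - a) =
              α • (a + ζ • (x - a)) + β • (a + η • (x - a)) := by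
            have e1 : (α • ζ + β • η) • (x - a) = α • (ζ • (x - a)) + β • (η • (x - a)) := by
              rw [add_smul, smul_assoc, smul_assoc]
            have e2 : a = α • a + β • a := by rw [← add_smul, hαβ, one_smul]
            rw [e1, smul_add, smul_add]
            nth_rewrite 1 [e2]
            abel
          show a + (α • ζ + β • η) • (x - a) ∈ Metric.ball (φ s₀) ε
          rw [h5]
          exact (convex_ball (φ s₀) ε) hζ hη hα hβ hαβ
        exact this.isPreconnected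
      set f : ℂ → S := fun ζ => φ.symm (a + ζ • (x - a)) with hf
      have hfd : ∀ ζ ∈ Ω, MDifferentiableAt 𝓘(ℂ) 𝓘(ℂ, 𝕄) f ζ := fun ζ hζ =>
        mdifferentiableAt_line s₀ a (x - a) ζ (hball _ hζ).1
      set T : ℂ → ((X.F p s₀ × W) →L[ℂ] E) := fun ζ => sumMap (X.F p s₀) W (g (f ζ)) with hT
      have hTd : ∀ ζ ∈ Ω, DifferentiableAt ℂ T ζ := by
        intro ζ hζ
        have h6 : MDifferentiableAt 𝓘(ℂ) 𝓘(ℂ, E →L[ℂ] E) (g ∘ f) ζ :=
          (hball _ hζ).2.1.comp ζ (hfd ζ hζ)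
        have h7 : DifferentiableAt ℂ (fun ζ => g (f ζ)) ζ :=
          mdifferentiableAt_iff_differentiableAt.1 h6
        rw [hT]
        simp only [sumMap_eq]
        exact (h7.clm_comp (differentiableAt_const _)).add_const _
      have hrk : ∀ ζ ∈ Ω, Module.finrank ℂ (LinearMap.range (T ζ : (X.F p s₀ × W) →ₗ[ℂ] E)) =
          Module.finrank ℂ (X.F p (f ζ) ⊔ W : Submodule ℂ E) := by
        intro ζ hζ
        rw [hT]
        simp only []
        rw [finrank_range_sumMap, (hball _ hζ).2.2.2 p]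
      have h0Ω : (0 : ℂ) ∈ Ω := by
        show a + (0 : ℂ) • (x - a) ∈ Metric.ball (φ s₀) ε
        rw [zero_smul, add_zero]
        exact hs₂'
      have h1Ω : (1 : ℂ) ∈ Ω := by
        show a + (1 : ℂ) • (x - a) ∈ Metric.ball (φ s₀) ε
        rw [one_smul, add_sub_cancel]
        exact hx
      have hf0 : f 0 = s₂ := by
        show φ.symm (a + (0 : ℂ) • (x - a)) = s₂
        rw [zero_smul, add_zero, ha, φ.left_inv hs₂]
      have hf1 : f 1 = φ.symm x := by
        show φ.symm (a + (1 : ℂ) • (x - a)) = φ.symm x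
        rw [one_smul, add_sub_cancel]
      have hev : ∀ᶠ ζ in 𝓝 (0 : ℂ),
          Module.finrank ℂ (LinearMap.range (T ζ : (X.F p s₀ × W) →ₗ[ℂ] E)) ≤ ρ := by
        have h10 : Tendsto f (𝓝 0) (𝓝 s₂) := by
          have := (hfd 0 h0Ω).continuousAt
          rwa [ContinuousAt, hf0] at this
        filter_upwards [h10.eventually hs₂Z, hΩo.eventually_mem h0Ω] with ζ h11 h12
        rw [hrk ζ h12]
        exact h11
      have h13 := Pool.Agent.H14.GW.finrank_range_identity hΩo hΩc hTd h0Ω hev h1Ω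
      rw [hrk 1 h1Ω, hf1] at h13
      exact h13
    show ∀ᶠ t in 𝓝 s₀, Module.finrank ℂ (X.F p t ⊔ W : Submodule ℂ E) ≤ ρ
    filter_upwards [h2] with t ht
    have := key (φ t) ht.2
    rwa [φ.left_inv ht.1] at this
  obtain ⟨s₁, hs₁⟩ := hne
  have huniv : Z = Set.univ := by
    have := isClopen_iff.1 ⟨hclosed, hopen⟩
    rcases this with h3 | h3
    · have h4 : s₁ ∈ Z := by
        show ∀ᶠ t in 𝓝 s₁, Module.finrank ℂ (X.F p t ⊔ W : Submodule ℂ E) ≤ ρ
        filter_upwards [hU.mem_nhds hs₁] with t ht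
        exact h t ht
      exact absurd h4 (by rw [h3]; exact Set.notMem_empty _)
    · exact h3
  have : s ∈ Z := by rw [huniv]; exact Set.mem_univ s
  exact this.self_of_nhds

end PolarizedVariation

end Pool.Agent.H64.GW
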